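import Mathlib
import Pool.Agent.N290.RL.Stm

/-!
# Project RL (helper290), part SM: smooth solutions for dilated data

Part SM of the project RL of helper290 (statements `YN`, `YF`, `XG`, `SG`, `SM` in
`Pool/Agent/N290/RL/Stm.lean`, and the plan of the proof, are by helper290); written by
helper669.
-/

set_option autoImplicit false

open Complex MeasureTheory Set Filter Topology
open scoped ENNReal

namespace Pool.Agent.N669.RL

open Pool.Agent.N290.RJ Pool.Agent.N290.RK Pool.Agent.N290.RL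

variable {d : ℕ}

/-- sequences of functions with the bounds of the construction -/
structure Cls (a : E d → ℝ) (K : ℝ) (u : ℕ → E d → ℂ) : Prop where
  c0 : 0 ≤ K
  t0 : ∀ k, ∀ z ∈ B d, 0 ≤ a z * (st k z / ww z k)
  t1 : ∀ k, ∀ z ∈ B d, ∀ ξ, 0 ≤ a z * ww z k ^ 3 * len z ξ
  c1 : ∀ k, ContDiffOn ℝ 1 (u k) (B d)
  c2 : ∀ k, ∀ z ∈ B d, ‖u k z‖ ≤ K
  c3 : ∀ k, ∀ z ∈ B d, ‖u (k + 1) z - u k z‖ ≤ K * (a z * (st k z / ww z k))
  c4 : ∀ k, ∀ z ∈ B d, ∀ ξ, ‖fderiv ℝ (u k) z ξ‖ ≤ K * (a z * ww z k ^ 3 * len z ξ)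

theorem Cls.dif {a : E d → ℝ} {K : ℝ} {u : ℕ → E d → ℂ} (h : Cls a K u) (k : ℕ) {z : E d}
    (hz : z ∈ B d) : DifferentiableAt ℝ (u k) z :=
  ((h.c1 k).differentiableOn one_ne_zero).differentiableAt (B_open.mem_nhds hz)

theorem Cls.mono {a : E d → ℝ} {K K' : ℝ} {u : ℕ → E d → ℂ} (h : Cls a K u) (hK : K ≤ K') :
    Cls a K' u where
  c0 := h.c0.trans hK
  t0 := h.t0
  t1 := h.t1
  c1 := h.c1
  c2 := fun k z hz => (h.c2 k z hz).trans hK
  c3 := fun k z hz => (h.c3 k z hz).trans (mul_le_mul_of_nonneg_right hK (h.t0 k z hz))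
  c4 := fun k z hz ξ => (h.c4 k z hz ξ).trans (mul_le_mul_of_nonneg_right hK (h.t1 k z hz ξ))

theorem Cls.add {a : E d → ℝ} {K K' : ℝ} {u v : ℕ → E d → ℂ} (h : Cls a K u) (h' : Cls a K' v) :
    Cls a (K + K') (fun k z => u k z + v k z) where
  c0 := add_nonneg h.c0 h'.c0
  t0 := h.t0
  t1 := h.t1
  c1 := fun k => (h.c1 k).add (h'.c1 k)
  c2 := fun k z hz => (norm_add_le _ _).trans (add_le_add (h.c2 k z hz) (h'.c2 k z hz))
  c3 := fun k z hz => by
    have e : u (k + 1) z + v (k + 1) z - (u k z + v k z) =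
        (u (k + 1) z - u k z) + (v (k + 1) z - v k z) := by ring
    rw [e, add_mul]
    exact (norm_add_le _ _).trans (add_le_add (h.c3 k z hz) (h'.c3 k z hz))
  c4 := fun k z hz ξ => by
    rw [fderiv_fun_add (h.dif k hz) (h'.dif k hz), add_mul]
    simp only [add_apply]
    exact (norm_add_le _ _).trans (add_le_add (h.c4 k z hz ξ) (h'.c4 k z hz ξ))

theorem Cls.sub {a : E d → ℝ} {K K' : ℝ} {u v : ℕ → E d → ℂ} (h : Cls a K u) (h' : Cls a K' v) :
    Cls a (K + K') (fun k z => u k z - v k z) where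
  c0 := add_nonneg h.c0 h'.c0
  t0 := h.t0
  t1 := h.t1
  c1 := fun k => (h.c1 k).sub (h'.c1 k)
  c2 := fun k z hz => (norm_sub_le _ _).trans (add_le_add (h.c2 k z hz) (h'.c2 k z hz))
  c3 := fun k z hz => by
    have e : u (k + 1) z - v (k + 1) z - (u k z - v k z) =
        (u (k + 1) z - u k z) - (v (k + 1) z - v k z) := by ring
    rw [e, add_mul]
    exact (norm_sub_le _ _).trans (add_le_add (h.c3 k z hz) (h'.c3 k z hz))
  c4 := fun k z hz ξ => by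
    rw [fderiv_fun_sub (h.dif k hz) (h'.dif k hz), add_mul]
    simp only [sub_apply]
    exact (norm_sub_le _ _).trans (add_le_add (h.c4 k z hz ξ) (h'.c4 k z hz ξ))

theorem Cls.mul {a : E d → ℝ} {K K' : ℝ} {u v : ℕ → E d → ℂ} (h : Cls a K u) (h' : Cls a K' v) :
    Cls a (2 * (K * K')) (fun k z => u k z * v k z) where
  c0 := by have := mul_nonneg h.c0 h'.c0; linarith
  t0 := h.t0
  t1 := h.t1
  c1 := fun k => (h.c1 k).mul (h'.c1 k)
  c2 := fun k z hz => by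
    have h0 := mul_nonneg h.c0 h'.c0
    rw [norm_mul]
    have h1 := mul_le_mul (h.c2 k z hz) (h'.c2 k z hz) (norm_nonneg _) h.c0
    linarith
  c3 := fun k z hz => by
    have e : u (k + 1) z * v (k + 1) z - u k z * v k z =
        v (k + 1) z * (u (k + 1) z - u k z) + u k z * (v (k + 1) z - v k z) := by ring
    rw [e]
    have h1 := mul_le_mul (h.c2 k z hz) (h'.c3 k z hz) (norm_nonneg _) h.c0
    have h2 := mul_le_mul (h'.c2 (k + 1) z hz) (h.c3 k z hz) (norm_nonneg _) h'.c0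
    refine (norm_add_le _ _).trans ?_
    rw [norm_mul, norm_mul]
    refine (add_le_add h2 h1).trans (le_of_eq ?_)
    ring
  c4 := fun k z hz ξ => by
    rw [fderiv_fun_mul (h.dif k hz) (h'.dif k hz)]
    simp only [add_apply, smul_apply, smul_eq_mul]
    have h1 := mul_le_mul (h.c2 k z hz) (h'.c4 k z hz ξ) (norm_nonneg _) h.c0
    have h2 := mul_le_mul (h'.c2 k z hz) (h.c4 k z hz ξ) (norm_nonneg _) h'.c0
    refine (norm_add_le _ _).trans ?_
    rw [norm_mul, norm_mul]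
    refine (add_le_add h1 h2).trans (le_of_eq ?_)
    ring

theorem conj_hasFDerivAt {u : E d → ℂ} {z : E d} (h : DifferentiableAt ℝ u z) :
    HasFDerivAt (fun w => starRingEnd ℂ (u w))
      (Complex.conjCLE.toContinuousLinearMap.comp (fderiv ℝ u z)) z :=
  (Complex.conjCLE.toContinuousLinearMap.hasFDerivAt (x := u z)).comp z h.hasFDerivAt

theorem conj_cd {u : E d → ℂ} (h : ContDiffOn ℝ 1 u (B d)) :
    ContDiffOn ℝ 1 (fun w => starRingEnd ℂ (u w)) (B d) :=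
  Complex.conjCLE.contDiff.comp_contDiffOn h

theorem Cls.conj {a : E d → ℝ} {K : ℝ} {u : ℕ → E d → ℂ} (h : Cls a K u) :
    Cls a K (fun k z => starRingEnd ℂ (u k z)) where
  c0 := h.c0
  t0 := h.t0
  t1 := h.t1
  c1 := fun k => conj_cd (h.c1 k)
  c2 := fun k z hz => by rw [Complex.norm_conj]; exact h.c2 k z hz
  c3 := fun k z hz => by
    rw [← map_sub, Complex.norm_conj]; exact h.c3 k z hz
  c4 := fun k z hz ξ => by
    rw [(conj_hasFDerivAt (h.dif k hz)).fderiv]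
    have e : (Complex.conjCLE.toContinuousLinearMap.comp (fderiv ℝ (u k) z)) ξ =
        starRingEnd ℂ (fderiv ℝ (u k) z ξ) := rfl
    rw [e, Complex.norm_conj]
    exact h.c4 k z hz ξ

theorem inv_hasFDerivAt {u : E d → ℂ} {z : E d} (h : DifferentiableAt ℝ u z) (h0 : u z ≠ 0) :
    HasFDerivAt (fun w => (u w)⁻¹) (-((u z)⁻¹ ^ 2) • fderiv ℝ u z) z := by
  have h1 := h.hasFDerivAt
  have h2 : HasDerivAt (fun w : ℂ => w⁻¹) (-((u z) ^ 2)⁻¹) (u z) := hasDerivAt_inv h0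
  have h3 := h2.hasFDerivAt.restrictScalars ℝ
  have h4 : HasFDerivAt (fun w => (u w)⁻¹) _ z := h3.comp z h1
  refine h4.congr_fderiv ?_
  ext η <;> simp [mul_comm]

theorem db_inv {u : E d → ℂ} {z : E d} (h : DifferentiableAt ℝ u z) (h0 : u z ≠ 0) (ξ : E d) :
    db (fun w => (u w)⁻¹) z ξ = -((u z)⁻¹ ^ 2) * db u z ξ := by
  unfold db
  rw [(inv_hasFDerivAt h h0).fderiv]
  simp only [smul_apply, smul_eq_mul]
  ring

theorem Cls.inv {a : E d → ℝ} {K c : ℝ} {u : ℕ → E d → ℂ} (h : Cls a K u) (hc : 0 < c)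
    (hu : ∀ k, ∀ z ∈ B d, c ≤ ‖u k z‖) :
    Cls a (c⁻¹ + c⁻¹ ^ 2 * K) (fun k z => (u k z)⁻¹) where
  c0 := by have := h.c0; positivity
  t0 := h.t0
  t1 := h.t1
  c1 := fun k => (h.c1 k).inv fun z hz => norm_pos_iff.1 (hc.trans_le (hu k z hz))
  c2 := fun k z hz => by
    have h1 : 0 ≤ c⁻¹ ^ 2 * K := by have := h.c0; positivity
    rw [norm_inv]
    have h2 := inv_anti₀ hc (hu k z hz)
    linarith
  c3 := fun k z hz => by
    have n1 : u k z ≠ 0 := norm_pos_iff.1 (hc.trans_le (hu k z hz))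
    have n2 : u (k + 1) z ≠ 0 := norm_pos_iff.1 (hc.trans_le (hu (k + 1) z hz))
    have e : (u (k + 1) z)⁻¹ - (u k z)⁻¹ =
        -((u (k + 1) z)⁻¹ * (u k z)⁻¹ * (u (k + 1) z - u k z)) := by
      field_simp; ring
    have h2 := inv_anti₀ hc (hu k z hz)
    have h3 := inv_anti₀ hc (hu (k + 1) z hz)
    rw [e, norm_neg, norm_mul, norm_mul, norm_inv, norm_inv, add_mul]
    have h4 : ‖u (k + 1) z‖⁻¹ * ‖u k z‖⁻¹ ≤ c⁻¹ ^ 2 := by
      rw [sq]
      exact mul_le_mul h3 h2 (by positivity) (by positivity)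
    have h5 := mul_le_mul h4 (h.c3 k z hz) (norm_nonneg _) (by positivity)
    have h6 : 0 ≤ c⁻¹ * (a z * (st k z / ww z k)) := mul_nonneg (by positivity) (h.t0 k z hz)
    linarith
  c4 := fun k z hz ξ => by
    have n1 : u k z ≠ 0 := norm_pos_iff.1 (hc.trans_le (hu k z hz))
    have h2 := inv_anti₀ hc (hu k z hz)
    rw [(inv_hasFDerivAt (h.dif k hz) n1).fderiv]
    simp only [smul_apply, smul_eq_mul]
    rw [norm_mul, norm_neg, norm_pow, norm_inv, add_mul]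
    have h4 : ‖u k z‖⁻¹ ^ 2 ≤ c⁻¹ ^ 2 := pow_le_pow_left₀ (by positivity) h2 2
    have h5 := mul_le_mul h4 (h.c4 k z hz ξ) (norm_nonneg _) (by positivity)
    have h6 : 0 ≤ c⁻¹ * (a z * ww z k ^ 3 * len z ξ) :=
      mul_nonneg (by positivity) (h.t1 k z hz ξ)
    linarith

/-- the dilated function -/
theorem cls_F (hN : YN d) (hF : YF d) {a : E d → ℝ} {f : E d → ℂ} (ha : AW a)
    (hf : DifferentiableOn ℂ f (B d)) (hf1 : ∀ z ∈ B d, ‖f z‖ ≤ 1)
    (hfa : ∀ z ∈ B d, ∀ ξ, ‖fderiv ℂ f z ξ‖ ≤ a z * len z ξ) :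
    Cls a 2 (fun k z => f (rad k • z)) where
  c0 := by norm_num
  t0 := fun k z hz => by
    obtain ⟨h1, -, h3, -⟩ := hN z hz k
    exact mul_nonneg (ha.a2 z hz).1.le (div_nonneg h1 h3.le)
  t1 := fun k z hz ξ => by
    obtain ⟨h1, -, h3, -⟩ := hN z hz k
    exact mul_nonneg (mul_nonneg (ha.a2 z hz).1.le (pow_nonneg h3.le 3)) (len_nonneg _ _)
  c1 := fun k => cd_dil (cd_hol hf) (rad_nonneg k) (rad_lt_one k).le
  c2 := fun k z hz => (hf1 _ (smul_mem_B hz (rad_nonneg k) (rad_lt_one k).le)).trans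
    (by norm_num)
  c3 := fun k z hz => by
    refine (hF a f ha hf hfa k z hz).2.1.trans (le_of_eq ?_)
    ring
  c4 := fun k z hz ξ => by
    obtain ⟨h1, -, h3, h4, -⟩ := hN z hz k
    obtain ⟨e1, e2, -⟩ := (hF a f ha hf hfa k z hz).2.2.2 ξ
    rw [e2]
    refine e1.trans ?_
    have h5 : ww z k ^ 7 ≤ ww z k ^ 3 := pow_le_pow_of_le_one h3.le h4 (by norm_num)
    have h6 := (ha.a2 z hz).1
    have h7 := len_nonneg z ξ
    have h8 : a z * ww z k ^ 7 * len z ξ ≤ a z * ww z k ^ 3 * len z ξ := by gcongr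
    have h9 : 0 ≤ a z * ww z k ^ 3 * len z ξ := by positivity
    calc 3 / 2 * a z * ww z k ^ 7 * len z ξ = 3 / 2 * (a z * ww z k ^ 7 * len z ξ) := by ring
      _ ≤ 2 * (a z * ww z k ^ 3 * len z ξ) := by linarith

theorem algG (F cF X cX P R cx v eD ev eX : ℂ) (hR : R * (F * cF + X * cX) = 1) :
    cF * (-R ^ 2 * ((F + X * P) * cx + eD)) + R * cx -
      (X * ((cX - cF * P) * (R * R) * cx + ev) + v * eX) = -(cF * R ^ 2 * eD) - X * ev - v * eX := by
  linear_combination (-(R * cx)) * hR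

theorem algW (F cF X cX P R cx eD ev eP : ℂ) (hR : R * (F * cF + X * cX) = 1) :
    cX * (-R ^ 2 * ((F + X * P) * cx + eD)) + R * (P * cx + eP) +
      (F * ((cX - cF * P) * (R * R) * cx + ev) + 0) = -(cX * R ^ 2 * eD) + R * eP + F * ev := by
  linear_combination (-(R * P * cx)) * hR

theorem n3 {x y z : ℂ} {p q r : ℝ} (hx : ‖x‖ ≤ p) (hy : ‖y‖ ≤ q) (hz : ‖z‖ ≤ r) :
    ‖x * y * z‖ ≤ p * q * r := by
  rw [norm_mul, norm_mul]
  exact mul_le_mul (mul_le_mul hx hy (norm_nonneg _) ((norm_nonneg _).trans hx)) hz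
    (norm_nonneg _) (mul_nonneg ((norm_nonneg _).trans hx) ((norm_nonneg _).trans hy))

theorem n2 {x y : ℂ} {p q : ℝ} (hx : ‖x‖ ≤ p) (hy : ‖y‖ ≤ q) : ‖x * y‖ ≤ p * q := by
  rw [norm_mul]
  exact mul_le_mul hx hy (norm_nonneg _) ((norm_nonneg _).trans hx)

/-- the size of the denominator -/
theorem den_lower {ε : ℝ} {F X : ℂ} (hε : 0 < ε) (h : ‖F‖ ≤ ε → 1 ≤ ‖X‖) :
    min (ε ^ 2) 1 ≤ ‖F * starRingEnd ℂ F + X * starRingEnd ℂ X‖ := by
  rw [mulconj, mulconj, ← Complex.ofReal_add, Complex.norm_real, Real.norm_eq_abs,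
    abs_of_nonneg (by positivity)]
  by_cases h1 : ‖F‖ ≤ ε
  · have h2 := h h1
    have h3 : 1 ≤ ‖X‖ ^ 2 := one_le_pow₀ h2
    refine (min_le_right _ _).trans ?_
    have := sq_nonneg ‖F‖
    linarith
  · push Not at h1
    have h3 : ε ^ 2 ≤ ‖F‖ ^ 2 := pow_le_pow_left₀ hε.le h1.le 2
    refine (min_le_left _ _).trans ?_
    have := sq_nonneg ‖X‖
    linarith

/-- the pointwise computation -/
theorem point {F X P v : E d → ℂ} {z : E d} {K KR C₂ T : ℝ} {cx : ℂ} (ξ : E d)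
    (dF : DifferentiableAt ℝ F z) (dX : DifferentiableAt ℝ X z)
    (dv : DifferentiableAt ℝ v z)
    (hF1 : ‖F z‖ ≤ 1) (hX1 : ‖X z‖ ≤ K)
    (hD : F z * starRingEnd ℂ (F z) + X z * starRingEnd ℂ (X z) ≠ 0)
    (hR1 : ‖(F z * starRingEnd ℂ (F z) + X z * starRingEnd ℂ (X z))⁻¹‖ ≤ KR)
    (hv1 : ‖v z‖ ≤ C₂)
    (bF : db F z ξ = 0) (bF' : db (fun w => starRingEnd ℂ (F w)) z ξ = cx)
    (bX : ‖db X z ξ‖ ≤ K * T)
    (bX' : ‖db (fun w => starRingEnd ℂ (X w)) z ξ - P z * cx‖ ≤ K * T)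
    (bv : ‖db v z ξ - (starRingEnd ℂ (X z) - starRingEnd ℂ (F z) * P z) *
      ((F z * starRingEnd ℂ (F z) + X z * starRingEnd ℂ (X z))⁻¹ *
        (F z * starRingEnd ℂ (F z) + X z * starRingEnd ℂ (X z))⁻¹) * cx‖ ≤ C₂ * T) :
    ‖db (fun w => starRingEnd ℂ (F w) * (F w * starRingEnd ℂ (F w) +
        X w * starRingEnd ℂ (X w))⁻¹ - X w * v w) z ξ‖ ≤
      (2 * K ^ 2 * KR ^ 2 + 2 * K * C₂) * T ∧
    ‖db (fun w => starRingEnd ℂ (X w) * (F w * starRingEnd ℂ (F w) +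
        X w * starRingEnd ℂ (X w))⁻¹ + F w * v w) z ξ‖ ≤
      (2 * K ^ 3 * KR ^ 2 + KR * K + C₂) * T := by
  have dcF : DifferentiableAt ℝ (fun w => starRingEnd ℂ (F w)) z :=
    (conj_hasFDerivAt dF).differentiableAt
  have dcX : DifferentiableAt ℝ (fun w => starRingEnd ℂ (X w)) z :=
    (conj_hasFDerivAt dX).differentiableAt
  have dFF : DifferentiableAt ℝ (fun w => F w * starRingEnd ℂ (F w)) z := dF.mul dcF
  have dXX : DifferentiableAt ℝ (fun w => X w * starRingEnd ℂ (X w)) z := dX.mul dcX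
  have dD : DifferentiableAt ℝ (fun w => F w * starRingEnd ℂ (F w) +
    X w * starRingEnd ℂ (X w)) z := dFF.add dXX
  have dR : DifferentiableAt ℝ (fun w => (F w * starRingEnd ℂ (F w) +
    X w * starRingEnd ℂ (X w))⁻¹) z := (inv_hasFDerivAt dD hD).differentiableAt
  set R : ℂ := (F z * starRingEnd ℂ (F z) + X z * starRingEnd ℂ (X z))⁻¹ with hRdef
  have hRD : R * (F z * starRingEnd ℂ (F z) + X z * starRingEnd ℂ (X z)) = 1 :=
    inv_mul_cancel₀ hD
  set eX : ℂ := db X z ξ with heX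
  obtain ⟨eP, heP⟩ : ∃ eP : ℂ, eP = db (fun w => starRingEnd ℂ (X w)) z ξ - P z * cx :=
    ⟨_, rfl⟩
  rw [← heP] at bX'
  have heP' : db (fun w => starRingEnd ℂ (X w)) z ξ = P z * cx + eP := by rw [heP]; ring
  obtain ⟨ev, hev⟩ : ∃ ev : ℂ, ev = db v z ξ - (starRingEnd ℂ (X z) -
    starRingEnd ℂ (F z) * P z) * (R * R) * cx := ⟨_, rfl⟩
  rw [← hev] at bv
  have hev' : db v z ξ = (starRingEnd ℂ (X z) -
    starRingEnd ℂ (F z) * P z) * (R * R) * cx + ev := by rw [hev]; ring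
  obtain ⟨eD, heD⟩ : ∃ eD : ℂ, eD = X z * eP + starRingEnd ℂ (X z) * eX := ⟨_, rfl⟩
  have hX1' : ‖starRingEnd ℂ (X z)‖ ≤ K := by rw [Complex.norm_conj]; exact hX1
  have hF1' : ‖starRingEnd ℂ (F z)‖ ≤ 1 := by rw [Complex.norm_conj]; exact hF1
  have bD : ‖eD‖ ≤ 2 * K ^ 2 * T := by
    rw [heD]
    refine (norm_add_le _ _).trans ((add_le_add (n2 hX1 bX') (n2 hX1' bX)).trans (le_of_eq ?_))
    ring
  have hdD : db (fun w => F w * starRingEnd ℂ (F w) + X w * starRingEnd ℂ (X w)) z ξ =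
      (F z + X z * P z) * cx + eD := by
    rw [db_add dFF dXX, db_mul dF dcF, db_mul dX dcX, bF, bF', heP', heD]
    ring
  have hdR : db (fun w => (F w * starRingEnd ℂ (F w) + X w * starRingEnd ℂ (X w))⁻¹) z ξ =
      -R ^ 2 * ((F z + X z * P z) * cx + eD) := by
    rw [db_inv dD hD, hdD]
  have hKR : 0 ≤ KR := (norm_nonneg _).trans hR1
  have hC₂ : 0 ≤ C₂ := (norm_nonneg _).trans hv1
  have hR2 : ‖R ^ 2‖ ≤ KR ^ 2 := by
    rw [norm_pow]; exact pow_le_pow_left₀ (norm_nonneg _) hR1 2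
  have m1 : DifferentiableAt ℝ (fun w => starRingEnd ℂ (F w) * (F w * starRingEnd ℂ (F w) +
    X w * starRingEnd ℂ (X w))⁻¹) z := dcF.mul dR
  have m2 : DifferentiableAt ℝ (fun w => X w * v w) z := dX.mul dv
  have m3 : DifferentiableAt ℝ (fun w => starRingEnd ℂ (X w) * (F w * starRingEnd ℂ (F w) +
    X w * starRingEnd ℂ (X w))⁻¹) z := dcX.mul dR
  have m4 : DifferentiableAt ℝ (fun w => F w * v w) z := dF.mul dv
  constructor
  · rw [db_sub m1 m2, db_mul dcF dR, db_mul dX dv, bF', hdR, hev',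
      algG _ _ _ _ _ _ _ _ _ _ _ hRD]
    have q1 := n3 hF1' hR2 bD
    have q2 := n2 hX1 bv
    have q3 := n2 hv1 bX
    have q4 : ‖-(starRingEnd ℂ (F z) * R ^ 2 * eD) - X z * ev - v z * eX‖ ≤
        ‖starRingEnd ℂ (F z) * R ^ 2 * eD‖ + ‖X z * ev‖ + ‖v z * eX‖ := by
      refine (norm_sub_le _ _).trans (add_le_add ((norm_sub_le _ _).trans ?_) le_rfl)
      rw [norm_neg]
    refine q4.trans ((add_le_add (add_le_add q1 q2) q3).trans (le_of_eq ?_))
    ring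
  · rw [db_add m3 m4, db_mul dcX dR, db_mul dF dv, bF, hdR, hev', heP',
      mul_zero, algW _ _ _ _ _ _ _ _ _ _ hRD]
    have q1 := n3 hX1' hR2 bD
    have q2 := n2 hR1 bX'
    have q3 := n2 hF1 bv
    have q4 : ‖-(starRingEnd ℂ (X z) * R ^ 2 * eD) + R * eP + F z * ev‖ ≤
        ‖starRingEnd ℂ (X z) * R ^ 2 * eD‖ + ‖R * eP‖ + ‖F z * ev‖ := by
      refine (norm_add_le _ _).trans (add_le_add ((norm_add_le _ _).trans ?_) le_rfl)
      rw [norm_neg]
    refine q4.trans ((add_le_add (add_le_add q1 q2) q3).trans (le_of_eq ?_))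
    ring

/-- **smooth solutions for dilated data** -/
theorem SM_of (d : ℕ) (hN : YN d) (hF : YF d) (hX : XG d) (hS : SG d) : SM d := by
  intro δ hδ
  obtain ⟨K, hK, hXG⟩ := hX (δ / 8) (δ / 4) (by positivity) (by linarith)
  obtain ⟨c, hcdef⟩ : ∃ c : ℝ, c = min ((δ / 8) ^ 2) 1 := ⟨_, rfl⟩
  have hc : 0 < c := by rw [hcdef]; exact lt_min (by positivity) one_pos
  obtain ⟨KR, hKRdef⟩ : ∃ KR : ℝ, KR = c⁻¹ + c⁻¹ ^ 2 * (2 * (2 * 2) + 2 * (K * K)) := ⟨_, rfl⟩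
  have hKR : 0 < KR := by rw [hKRdef]; positivity
  obtain ⟨C₁, hC₁def⟩ : ∃ C₁ : ℝ, C₁ = 2 * ((K + 2 * (2 * K)) * (2 * (KR * KR))) := ⟨_, rfl⟩
  have hC₁ : 0 < C₁ := by rw [hC₁def]; positivity
  obtain ⟨C₂, hC₂, hSG⟩ := hS C₁ hC₁
  obtain ⟨k1, hk1⟩ : ∃ x : ℝ, x = KR + K * C₂ := ⟨_, rfl⟩
  obtain ⟨k2, hk2⟩ : ∃ x : ℝ, x = K * (2 / δ) * (K * KR + C₂) := ⟨_, rfl⟩
  obtain ⟨k3, hk3⟩ : ∃ x : ℝ, x = 2 * K ^ 2 * KR ^ 2 + 2 * K * C₂ := ⟨_, rfl⟩
  obtain ⟨k4, hk4⟩ : ∃ x : ℝ, x = K * (2 / δ) * (2 * K ^ 3 * KR ^ 2 + KR * K + C₂) +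
    (K * KR + C₂) * ((2 / δ) * K) := ⟨_, rfl⟩
  have p1 : 0 < k1 := by rw [hk1]; positivity
  have p2 : 0 < k2 := by rw [hk2]; positivity
  have p3 : 0 < k3 := by rw [hk3]; positivity
  have p4 : 0 < k4 := by rw [hk4]; positivity
  refine ⟨k1 + k2 + k3 + k4, by positivity, ?_⟩
  intro f G a hf hG hf1 hG1 hδ' ha hfa k
  obtain ⟨X, P, hXP⟩ := hXG f a hf hf1 ha hfa
  obtain ⟨F, hFdef⟩ : ∃ F : ℕ → E d → ℂ, F = fun k z => f (rad k • z) := ⟨_, rfl⟩
  have hFc : Cls a 2 F := by rw [hFdef]; exact cls_F hN hF ha hf hf1 hfa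
  have hXc : Cls a K X :=
    { c0 := hK.le
      t0 := hFc.t0
      t1 := hFc.t1
      c1 := fun k => (hXP k).1
      c2 := fun k z hz => ((hXP k).2.2 z hz).1
      c3 := fun k z hz => (((hXP k).2.2 z hz).2.2.2.2.1).trans (le_of_eq (by ring))
      c4 := fun k z hz ξ =>
        ((((hXP k).2.2 z hz).2.2.2.2.2.2 ξ).2.2.1).trans (le_of_eq (by ring)) }
  have hPc : Cls a K P :=
    { c0 := hK.le
      t0 := hFc.t0
      t1 := hFc.t1
      c1 := fun k => (hXP k).2.1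
      c2 := fun k z hz => ((hXP k).2.2 z hz).2.1
      c3 := fun k z hz => (((hXP k).2.2 z hz).2.2.2.2.2.1).trans (le_of_eq (by ring))
      c4 := fun k z hz ξ =>
        ((((hXP k).2.2 z hz).2.2.2.2.2.2 ξ).2.2.2).trans (le_of_eq (by ring)) }
  have hDc : Cls a (2 * (2 * 2) + 2 * (K * K)) (fun k z => F k z * starRingEnd ℂ (F k z) +
      X k z * starRingEnd ℂ (X k z)) := (hFc.mul hFc.conj).add (hXc.mul hXc.conj)
  have hDl : ∀ k, ∀ z ∈ B d, c ≤ ‖F k z * starRingEnd ℂ (F k z) +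
      X k z * starRingEnd ℂ (X k z)‖ := by
    intro k z hz
    rw [hcdef]
    refine den_lower (by positivity) ?_
    rw [hFdef]
    exact ((hXP k).2.2 z hz).2.2.2.1
  have hRc : Cls a KR (fun k z => (F k z * starRingEnd ℂ (F k z) +
      X k z * starRingEnd ℂ (X k z))⁻¹) := by
    rw [hKRdef]
    exact hDc.inv hc hDl
  have hΨc : Cls a C₁ (fun k z => (starRingEnd ℂ (X k z) - starRingEnd ℂ (F k z) * P k z) *
      ((F k z * starRingEnd ℂ (F k z) + X k z * starRingEnd ℂ (X k z))⁻¹ *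
        (F k z * starRingEnd ℂ (F k z) + X k z * starRingEnd ℂ (X k z))⁻¹)) := by
    rw [hC₁def]
    exact (hXc.conj.sub (hFc.conj.mul hPc)).mul (hRc.mul hRc)
  obtain ⟨v, hv1, hv2⟩ := hSG f a _ hf hf1 ha hfa hΨc.c1 (fun k z hz =>
    ⟨hΨc.c2 k z hz, (hΨc.c3 k z hz).trans (le_of_eq (by ring)), fun ξ =>
      (hΨc.c4 k z hz ξ).trans (le_of_eq (by ring))⟩) k
  obtain ⟨g, hg⟩ : ∃ g : E d → ℂ, g = fun w => starRingEnd ℂ (F k w) *
    (F k w * starRingEnd ℂ (F k w) + X k w * starRingEnd ℂ (X k w))⁻¹ - X k w * v w := ⟨_, rfl⟩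
  obtain ⟨W, hW⟩ : ∃ W : E d → ℂ, W = fun w => starRingEnd ℂ (X k w) *
    (F k w * starRingEnd ℂ (F k w) + X k w * starRingEnd ℂ (X k w))⁻¹ + F k w * v w := ⟨_, rfl⟩
  obtain ⟨h, hh⟩ : ∃ h : E d → ℂ, h = fun w => X k w * (G (rad k • w))⁻¹ * W w := ⟨_, rfl⟩
  have gC : ContDiffOn ℝ 1 g (B d) := by
    rw [hg]
    exact ((conj_cd (hFc.c1 k)).mul (hRc.c1 k)).sub ((hXc.c1 k).mul hv1)
  have WC : ContDiffOn ℝ 1 W (B d) := by
    rw [hW]
    exact ((conj_cd (hXc.c1 k)).mul (hRc.c1 k)).add ((hFc.c1 k).mul hv1)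
  have GC : ContDiffOn ℝ 1 (fun w => G (rad k • w)) (B d) :=
    cd_dil (cd_hol hG) (rad_nonneg k) (rad_lt_one k).le
  have hr : ∀ z ∈ B d, rad k • z ∈ B d := fun z hz =>
    smul_mem_B hz (rad_nonneg k) (rad_lt_one k).le
  have F1 : ∀ z ∈ B d, ‖F k z‖ ≤ 1 := by
    intro z hz
    rw [hFdef]
    exact hf1 _ (hr z hz)
  -- the two cases
  have case1 : ∀ z ∈ B d, ‖F k z‖ < δ / 2 → δ / 2 ≤ ‖G (rad k • z)‖ := by
    intro z hz hlt
    have h1 := hδ' _ (hr z hz)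
    rw [hFdef] at hlt
    simp only at hlt
    linarith
  have case2 : ∀ z ∈ B d, ¬ ‖F k z‖ < δ / 2 → X k z = 0 ∧ h =ᶠ[𝓝 z] fun _ => 0 := by
    intro z hz hlt
    push Not at hlt
    have hX0 : ∀ w ∈ B d, δ / 4 < ‖F k w‖ → X k w = 0 := by
      intro w hw h1
      refine ((hXP k).2.2 w hw).2.2.1 ?_
      rw [hFdef] at h1
      exact h1.le
    refine ⟨hX0 z hz (by linarith), ?_⟩
    have hcont : ContinuousAt (fun w => ‖F k w‖) z :=
      ((hFc.dif k hz).continuousAt).norm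
    have h1 : ∀ᶠ w in 𝓝 z, δ / 4 < ‖F k w‖ :=
      hcont.eventually (Ioi_mem_nhds (by linarith))
    filter_upwards [h1, B_open.mem_nhds hz] with w hw hwB
    rw [hh]
    simp only
    rw [hX0 w hwB hw, zero_mul, zero_mul]
  have hC : ContDiffOn ℝ 1 h (B d) := by
    intro z hz
    refine ContDiffAt.contDiffWithinAt ?_
    by_cases hlt : ‖F k z‖ < δ / 2
    · have h1 := case1 z hz hlt
      have h2 : G (rad k • z) ≠ 0 := norm_pos_iff.1 (lt_of_lt_of_le (by positivity) h1)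
      rw [hh]
      exact (((hXc.c1 k).contDiffAt (B_open.mem_nhds hz)).mul
        ((GC.contDiffAt (B_open.mem_nhds hz)).inv h2)).mul (WC.contDiffAt (B_open.mem_nhds hz))
    · exact contDiffAt_const.congr_of_eventuallyEq (case2 z hz hlt).2
  refine ⟨g, h, gC, hC, fun z hz => ?_⟩
  have hDne : F k z * starRingEnd ℂ (F k z) + X k z * starRingEnd ℂ (X k z) ≠ 0 :=
    norm_pos_iff.1 (hc.trans_le (hDl k z hz))
  obtain ⟨R, hRdef⟩ : ∃ R : ℂ, R = (F k z * starRingEnd ℂ (F k z) +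
    X k z * starRingEnd ℂ (X k z))⁻¹ := ⟨_, rfl⟩
  have hRD : R * (F k z * starRingEnd ℂ (F k z) + X k z * starRingEnd ℂ (X k z)) = 1 := by
    rw [hRdef]; exact inv_mul_cancel₀ hDne
  have bR : ‖R‖ ≤ KR := by rw [hRdef]; exact hRc.c2 k z hz
  have bF := F1 z hz
  have bX := hXc.c2 k z hz
  have bF' : ‖starRingEnd ℂ (F k z)‖ ≤ 1 := by rw [Complex.norm_conj]; exact bF
  have bX' : ‖starRingEnd ℂ (X k z)‖ ≤ K := by rw [Complex.norm_conj]; exact bX
  have bv := (hv2 z hz).1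
  have bg : ‖g z‖ ≤ k1 := by
    rw [hg, hk1]
    simp only
    rw [← hRdef]
    refine (norm_sub_le _ _).trans ((add_le_add (n2 bF' bR) (n2 bX bv)).trans (le_of_eq ?_))
    ring
  have bW : ‖W z‖ ≤ K * KR + C₂ := by
    rw [hW]
    simp only
    rw [← hRdef]
    refine (norm_add_le _ _).trans ((add_le_add (n2 bX' bR) (n2 bF bv)).trans (le_of_eq ?_))
    ring
  have hP := fun ξ => point (F := F k) (X := X k) (P := P k) (v := v) (z := z) (K := K)
    (KR := KR) (C₂ := C₂) (T := a z ^ 2 * len z ξ) (cx := starRingEnd ℂ (xj f k z ξ)) ξ (hFc.dif k hz) (hXc.dif k hz)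
    ((hv1.differentiableOn one_ne_zero).differentiableAt (B_open.mem_nhds hz)) bF bX hDne
    (hRc.c2 k z hz) bv
    (by rw [hFdef]; exact ((hF a f ha hf hfa k z hz).2.2.2 ξ).2.2.1)
    (by rw [hFdef]; exact ((hF a f ha hf hfa k z hz).2.2.2 ξ).2.2.2)
    ((((hXP k).2.2 z hz).2.2.2.2.2.2 ξ).1.trans (le_of_eq (by ring)))
    ((((hXP k).2.2 z hz).2.2.2.2.2.2 ξ).2.1.trans (le_of_eq (by ring)))
    (((hv2 z hz).2 ξ).trans (le_of_eq (by ring)))
  have bh : ‖h z‖ ≤ k2 ∧ F k z * g z + G (rad k • z) * h z = 1 ∧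
      ∀ ξ, ‖db h z ξ‖ ≤ k4 * (a z ^ 2 * len z ξ) := by
    by_cases hlt : ‖F k z‖ < δ / 2
    · have h1 := case1 z hz hlt
      have h2 : G (rad k • z) ≠ 0 := norm_pos_iff.1 (lt_of_lt_of_le (by positivity) h1)
      have bG : ‖(G (rad k • z))⁻¹‖ ≤ 2 / δ := by
        rw [norm_inv]
        refine (inv_anti₀ (by positivity) h1).trans (le_of_eq ?_)
        field_simp
      refine ⟨?_, ?_, fun ξ => ?_⟩
      · rw [hh, hk2]
        exact n3 bX bG bW
      · rw [hh, hg, hW]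
        simp only
        rw [← hRdef]
        have h3 : G (rad k • z) * (G (rad k • z))⁻¹ = 1 := mul_inv_cancel₀ h2
        linear_combination hRD + X k z * (starRingEnd ℂ (X k z) * R + F k z * v z) * h3
      · have dG : DifferentiableAt ℂ (fun w => G (rad k • w)) z :=
          (dil_hasFDerivAt (da_hol hG (hr z hz))).differentiableAt
        have dGi : DifferentiableAt ℂ (fun w => (G (rad k • w))⁻¹) z := dG.inv h2
        have dGiR : DifferentiableAt ℝ (fun w => (G (rad k • w))⁻¹) z := dGi.restrictScalars ℝ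
        have dXG : DifferentiableAt ℝ (fun w => X k w * (G (rad k • w))⁻¹) z :=
          (hXc.dif k hz).mul dGiR
        have dW : DifferentiableAt ℝ W z :=
          (WC.differentiableOn one_ne_zero).differentiableAt (B_open.mem_nhds hz)
        have e1 : db h z ξ = X k z * (G (rad k • z))⁻¹ * db W z ξ +
            W z * ((G (rad k • z))⁻¹ * db (X k) z ξ) := by
          rw [hh, db_mul dXG dW, db_mul (hXc.dif k hz) dGiR, db_hol dGi, mul_zero, zero_add]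
        have q1 : ‖db W z ξ‖ ≤ (2 * K ^ 3 * KR ^ 2 + KR * K + C₂) * (a z ^ 2 * len z ξ) := by
          rw [hW]; exact (hP ξ).2
        have q2 : ‖db (X k) z ξ‖ ≤ K * (a z ^ 2 * len z ξ) :=
          (((hXP k).2.2 z hz).2.2.2.2.2.2 ξ).1.trans (le_of_eq (by ring))
        rw [e1]
        refine (norm_add_le _ _).trans ((add_le_add (n3 bX bG q1)
          (n2 bW (n2 bG q2))).trans (le_of_eq ?_))
        rw [hk4]
        ring
    · obtain ⟨h1, h2⟩ := case2 z hz hlt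
      have h3 : h z = 0 := h2.self_of_nhds
      refine ⟨?_, ?_, fun ξ => ?_⟩
      · rw [h3, norm_zero]; exact p2.le
      · rw [h3, hg, mul_zero, add_zero]
        simp only
        rw [← hRdef]
        rw [h1] at hRD ⊢
        linear_combination hRD
      · rw [db_congr h2, db_hol (differentiableAt_const _), norm_zero]
        exact mul_nonneg p4.le (mul_nonneg (sq_nonneg _) (len_nonneg _ _))
  refine ⟨by linarith, by linarith [bh.1], ?_, fun ξ => ?_⟩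
  · have := bh.2.1
    rw [hFdef] at this
    exact this
  · have hT : 0 ≤ a z ^ 2 * len z ξ := mul_nonneg (sq_nonneg _) (len_nonneg _ _)
    have q1 : ‖db g z ξ‖ ≤ k3 * (a z ^ 2 * len z ξ) := by
      rw [hg, hk3]; exact (hP ξ).1
    have q2 := bh.2.2 ξ
    have e1 : (k1 + k2 + k3 + k4) * a z ^ 2 * len z ξ =
        (k1 + k2 + k3 + k4) * (a z ^ 2 * len z ξ) := by ring
    rw [e1]
    exact ⟨q1.trans (mul_le_mul_of_nonneg_right (by linarith) hT),
      q2.trans (mul_le_mul_of_nonneg_right (by linarith) hT)⟩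

end Pool.Agent.N669.RL
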